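import Pool.Agent.Helper37.OPG.Closed

/-!
# Project OPG, uniform version: hypersurfaces over the small field
-/

universe u v w

namespace Pool.Agent.OPG

open MvPolynomial

/-- a finite transcendence basis -/
theorem exists_basis_fin (F₀ : Type u) {k₀ : Type v} [Field F₀] [Field k₀] [Algebra F₀ k₀]
    (hk₀ : ∃ S : Finset k₀, Subfield.closure (S : Set k₀) = ⊤) :
    ∃ (n : ℕ) (s : Fin n → k₀), IsTranscendenceBasis F₀ s := by
  classical
  obtain ⟨S, hS⟩ := hk₀
  have halg : Algebra.IsAlgebraic (Algebra.adjoin F₀ (S : Set k₀)) k₀ := by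
    refine ⟨fun x => ?_⟩
    have hx : x ∈ Subfield.closure (S : Set k₀) := by
      rw [hS]
      trivial
    induction hx using Subfield.closure_induction with
    | mem x hx => exact isAlgebraic_algebraMap (⟨x, Algebra.subset_adjoin hx⟩ :
        Algebra.adjoin F₀ (S : Set k₀))
    | one => exact isAlgebraic_one
    | add x y _ _ hx hy => exact hx.add hy
    | neg x _ hx => exact hx.neg
    | inv x _ hx => exact hx.inv
    | mul x y _ _ hx hy => exact hx.mul hy
  obtain ⟨t, htS, ht⟩ := exists_isTranscendenceBasis_subset (R := F₀) (S : Set k₀)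
  have hfin : Finite t := (S.finite_toSet.subset htS).to_subtype
  obtain ⟨n, ⟨e⟩⟩ := Finite.exists_equiv_fin t
  exact ⟨n, fun i => ((e.symm i : t) : k₀), ht.comp_equiv e.symm⟩

/-- **Descent of a hypersurface**, uniformly in the extensions. -/
theorem exists_restrictU {F₀ k₀ : Type u} [Field F₀] [Field k₀] [Algebra F₀ k₀]
    (hk₀ : ∃ S : Finset k₀, Subfield.closure (S : Set k₀) = ⊤) {I : Type}
    {Φ : MvPolynomial I k₀} (hΦ : Φ ≠ 0) :
    ∃ Ψ : MvPolynomial I F₀, Ψ ≠ 0 ∧
      ∀ (F k : Type u) [Field F] [Field k] [Algebra F₀ F] [Algebra F k] [Algebra k₀ k]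
        [Algebra F₀ k] [IsScalarTower F₀ F k] [IsScalarTower F₀ k₀ k],
        (∀ {n : ℕ} {x : Fin n → k₀}, AlgebraicIndependent F₀ x →
          AlgebraicIndependent F (algebraMap k₀ k ∘ x)) →
        ∀ a : I → F, aeval a Ψ ≠ 0 →
          eval₂ (algebraMap k₀ k) (fun i => algebraMap F k (a i)) Φ ≠ 0 := by
  classical
  obtain ⟨n, s, hs⟩ := exists_basis_fin F₀ hk₀
  have halg : Algebra.IsAlgebraic (Algebra.adjoin F₀ (Set.range s)) k₀ := hs.isAlgebraic
  obtain ⟨g, hg0, hg⟩ := MvPolynomial.exists_dvd_map_of_isAlgebraic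
    (R := Algebra.adjoin F₀ (Set.range s)) hΦ
  -- the coefficients as polynomials in `s`
  have hQ : ∀ c : Algebra.adjoin F₀ (Set.range s), ∃ Q : MvPolynomial (Fin n) F₀,
      aeval s Q = (c : k₀) := by
    rintro ⟨c, hc⟩
    have h1 := hc
    rw [Algebra.adjoin_range_eq_range_aeval] at h1
    obtain ⟨Q, hQ⟩ := h1
    exact ⟨Q, hQ⟩
  choose Q hQ using hQ
  obtain ⟨ν, hν⟩ := MvPolynomial.ne_zero_iff.1 hg0
  have hQν : Q (coeff ν g) ≠ 0 := by
    intro h0
    have h1 := hQ (coeff ν g)
    rw [h0, map_zero] at h1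
    exact hν (Subtype.ext h1.symm)
  obtain ⟨μ, hμ⟩ := MvPolynomial.ne_zero_iff.1 hQν
  let Ψ : MvPolynomial I F₀ := ∑ m ∈ g.support, monomial m (coeff μ (Q (coeff m g)))
  have hΨ : Ψ ≠ 0 := by
    intro h0
    apply hμ
    have h1 : coeff ν Ψ = coeff μ (Q (coeff ν g)) := by
      simp only [Ψ, coeff_sum, coeff_monomial]
      rw [Finset.sum_eq_single ν]
      · rw [if_pos rfl]
      · intro b _ hb
        rw [if_neg hb]
      · intro h
        exact absurd (mem_support_iff.mpr hν) h
    rw [← h1, h0, coeff_zero]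
  refine ⟨Ψ, hΨ, ?_⟩
  intro F k _ _ _ _ _ _ _ _ hfree a ha h0
  apply ha
  -- the polynomial `g` vanishes
  have hg1 : eval₂ (algebraMap k₀ k) (fun i => algebraMap F k (a i))
      (MvPolynomial.map (algebraMap (Algebra.adjoin F₀ (Set.range s)) k₀) g) = 0 := by
    obtain ⟨g', hg'⟩ := hg
    rw [hg']
    have h1 := map_mul (eval₂Hom (algebraMap k₀ k) (fun i => algebraMap F k (a i))) Φ g'
    rw [coe_eval₂Hom] at h1
    rw [h1, h0, zero_mul]
  -- the values of the coefficients
  have hval : ∀ c : Algebra.adjoin F₀ (Set.range s), algebraMap k₀ k (c : k₀) =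
      aeval (algebraMap k₀ k ∘ s) (MvPolynomial.map (algebraMap F₀ F) (Q c)) := by
    intro c
    rw [← hQ c, aeval_map_algebraMap]
    exact MvPolynomial.comp_aeval_apply s (IsScalarTower.toAlgHom F₀ k₀ k) (Q c)
  have hind := hfree hs.1
  -- the polynomial in `s`
  let E : MvPolynomial (Fin n) F := ∑ m ∈ g.support,
    C (∏ i ∈ m.support, a i ^ m i) * MvPolynomial.map (algebraMap F₀ F) (Q (coeff m g))
  have hE : E = 0 := by
    have hinj : Function.Injective (aeval (R := F) (algebraMap k₀ k ∘ s)) := hind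
    apply hinj
    rw [map_zero, ← hg1, eval₂_map, eval₂_eq]
    simp only [E]
    rw [map_sum]
    refine Finset.sum_congr rfl fun m _ => ?_
    rw [map_mul, aeval_C, ← hval, map_prod, mul_comm]
    congr 1
    refine Finset.prod_congr rfl fun i _ => ?_
    rw [map_pow]
  have h2 := congrArg (coeff μ) hE
  simp only [E] at h2
  rw [coeff_sum, coeff_zero] at h2
  simp only [coeff_C_mul, coeff_map] at h2
  simp only [Ψ]
  rw [map_sum, ← h2]
  refine Finset.sum_congr rfl fun m _ => ?_
  rw [aeval_monomial, Finsupp.prod, mul_comm]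

end Pool.Agent.OPG
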