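import Pool.Agent.Helper37.OPG.U1
import Pool.Agent.Helper37.BT.Fin

/-!
# Project OPG, uniform version: finiteness over the line
-/

universe u v w

namespace Pool.Agent.OPG

open MvPolynomial IntermediateField Pool.Agent.PL Pool.Agent.BT

/-- **Finiteness over the line is an open condition**: the determinant. -/
theorem exists_det_finG {K : Type u} [Field K] {N d : ℕ} {U : Type} [Fintype U] {e : U → ℕ}
    {I : Type w} {f : MonV (N + 2) d → MvPolynomial I K}
    {rel : ∀ u, MonV (N + 2) (e u) → MvPolynomial I K} {M : ℕ} (hM : 1 ≤ M) {a₀ : I → K}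
    (h0 : FinG (fun q => eval a₀ (f q)) (fun u q => eval a₀ (rel u q)) M) :
    ∃ Δ : MvPolynomial I K, Δ ≠ 0 ∧ ∀ (L : Type u) [Field L] (φ : MvPolynomial I K →+* L),
      φ Δ ≠ 0 → FinG (fun q => φ (f q)) (fun u q => φ (rel u q)) M := by
  classical
  -- the vectors
  let vec : ∀ {L : Type u} [Field L], (MonV (N + 2) d → L) → (∀ u, MonV (N + 2) (e u) → L) →
      Cix N d M e → MonV (N + 2) M → L := fun g r i q => coeff q.1 (colG g r M i)
  have hsing : ∀ {L : Type u} [Field L] (q : MonV (N + 2) M),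
      pol (Pi.single q (1 : L)) = monomial q.1 1 := by
    intro L _ q
    have h1 : (Pi.single q (1 : L) : MonV (N + 2) M → L) = fun s => coeff s.1 (monomial q.1 1) := by
      funext s
      rw [coeff_monomial]
      by_cases hs : s = q
      · rw [hs, Pi.single_eq_same, if_pos rfl]
      · rw [Pi.single_eq_of_ne hs, if_neg fun h => hs (Subtype.ext h.symm)]
    rw [h1, pol_coeff (totalDegree_monomial_le' q.2 1)]
  have hpolsum : ∀ {L : Type u} [Field L] (T : Type) [Fintype T] (c : T → L)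
      (v : T → MonV (N + 2) M → L), pol (∑ i, c i • v i) = ∑ i, C (c i) * pol (v i) := by
    intro L _ T _ c v
    unfold pol
    simp only [Finset.sum_apply, Pi.smul_apply, smul_eq_mul, map_sum]
    rw [Finset.sum_comm]
    refine Finset.sum_congr rfl fun i _ => ?_
    rw [Finset.mul_sum]
    refine Finset.sum_congr rfl fun s _ => ?_
    rw [C_mul_monomial]
  have hspan : ∀ q : MonV (N + 2) M, ∃ c : Cix N d M e → K, Pi.single q 1 =
      ∑ i, c i • vec (fun q => eval a₀ (f q)) (fun u q => eval a₀ (rel u q)) i := by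
    intro q
    obtain ⟨c, hc⟩ := h0.exists_coords q
    refine ⟨c, pol_injective ?_⟩
    rw [hsing, hc, hpolsum]
    refine Finset.sum_congr rfl fun i _ => ?_
    rw [pol_coeff (totalDegree_colG _ _ hM i)]
  obtain ⟨s, hs⟩ := exists_minor _ hspan
  -- the determinant as a polynomial
  let Δ : MvPolynomial I K := (Matrix.of fun (a : MonV (N + 2) M) (b : MonV (N + 2) M) =>
    coeff a.1 (colG f rel M (s b))).det
  have hev : ∀ {L : Type u} [Field L] (φ : MvPolynomial I K →+* L), φ Δ =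
      (Matrix.of fun (q : MonV (N + 2) M) (b : MonV (N + 2) M) =>
        vec (fun q => φ (f q)) (fun u q => φ (rel u q)) (s b) q).det := by
    intro L _ φ
    rw [RingHom.map_det]
    congr 1
    ext q b
    change φ (coeff q.1 (colG f rel M (s b))) = coeff q.1 (colG _ _ M (s b))
    rw [← map_colG φ f rel M (s b), coeff_map]
  have hΔ : Δ ≠ 0 := by
    intro h
    apply hs
    have h1 := hev (eval a₀ : MvPolynomial I K →+* K)
    rw [h, map_zero] at h1
    exact h1.symm
  refine ⟨Δ, hΔ, fun L _ φ hφ => finG_of_coords fun q => ?_⟩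
  rw [hev] at hφ
  obtain ⟨c, hc⟩ := coords_of_minor hφ q
  have h2 := congrArg pol hc
  rw [hsing, hpolsum] at h2
  refine ⟨fun i => ∑ b ∈ Finset.univ.filter (fun b => s b = i), c b, ?_⟩
  rw [h2]
  have h3 : ∀ i, C (∑ b ∈ Finset.univ.filter (fun b => s b = i), c b) *
      colG (fun q => φ (f q)) (fun u q => φ (rel u q)) M i =
      ∑ b ∈ Finset.univ.filter (fun b => s b = i), C (c b) *
        colG (fun q => φ (f q)) (fun u q => φ (rel u q)) M (s b) := by
    intro i
    rw [map_sum, Finset.sum_mul]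
    refine Finset.sum_congr rfl fun b hb => ?_
    rw [(Finset.mem_filter.1 hb).2]
  rw [Finset.sum_congr rfl fun i _ => h3 i]
  have h4 : ∑ i, ∑ b ∈ Finset.univ.filter (fun b => s b = i), C (c b) *
        colG (fun q => φ (f q)) (fun u q => φ (rel u q)) M (s b) =
      ∑ b, C (c b) * colG (fun q => φ (f q)) (fun u q => φ (rel u q)) M (s b) := by
    convert Finset.sum_fiberwise (Finset.univ : Finset (MonV (N + 2) M)) s (fun b => C (c b) *
        colG (fun q => φ (f q)) (fun u q => φ (rel u q)) M (s b)) using 3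
  rw [h4]
  refine Finset.sum_congr rfl fun b _ => ?_
  rw [pol_coeff (totalDegree_colG _ _ hM _)]

/-- A property of vectors over the extensions `F` of `F₀` (`k = F k₀`, `F` and `k₀` free over `F₀`) which holds
only in a hypersurface over `F₀`. -/
def IsHypU (F₀ k₀ : Type u) [Field F₀] [Field k₀] [Algebra F₀ k₀] {I : Type}
    (A : ∀ (F k : Type u) [Field F] [Field k] [Algebra F k] [Algebra k₀ k], (I → F) → Prop) : Prop :=
  ∃ Ψ : MvPolynomial I F₀, Ψ ≠ 0 ∧
    ∀ (F k : Type u) [Field F] [Field k] [Algebra F₀ F] [Algebra F k] [Algebra k₀ k]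
      [Algebra F₀ k] [IsScalarTower F₀ F k] [IsScalarTower F₀ k₀ k],
      (∃ S : Finset F, Subfield.closure (S : Set F) = ⊤) →
      adjoin F (Set.range (algebraMap k₀ k)) = ⊤ →
      (∀ {n : ℕ} {x : Fin n → k₀}, AlgebraicIndependent F₀ x →
        AlgebraicIndependent F (algebraMap k₀ k ∘ x)) →
      ∀ a : I → F, A F k a → aeval a Ψ = 0

section

variable {F₀ k₀ : Type u} [Field F₀] [Field k₀] [Algebra F₀ k₀] {I I' E : Type}

lemma IsHypU.mono {A B : ∀ (F k : Type u) [Field F] [Field k] [Algebra F k] [Algebra k₀ k],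
    (I → F) → Prop} (hB : IsHypU F₀ k₀ B)
    (h : ∀ (F k : Type u) [Field F] [Field k] [Algebra F₀ F] [Algebra F k] [Algebra k₀ k]
      [Algebra F₀ k] [IsScalarTower F₀ F k] [IsScalarTower F₀ k₀ k] (a : I → F),
      A F k a → B F k a) : IsHypU F₀ k₀ A := by
  obtain ⟨Ψ, hΨ, h1⟩ := hB
  refine ⟨Ψ, hΨ, ?_⟩
  intro F k _ _ _ _ _ _ _ _ hF hk hfree a ha
  exact h1 F k hF hk (fun hx => hfree hx) a (h F k a ha)

lemma IsHypU.empty : IsHypU F₀ k₀ (I := I) fun _ _ _ _ _ _ _ => False :=
  ⟨1, one_ne_zero, fun _ _ _ _ _ _ _ _ _ _ _ _ _ _ ha => absurd ha id⟩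

lemma IsHypU.or {A B : ∀ (F k : Type u) [Field F] [Field k] [Algebra F k] [Algebra k₀ k],
    (I → F) → Prop} (hA : IsHypU F₀ k₀ A) (hB : IsHypU F₀ k₀ B) :
    IsHypU F₀ k₀ fun F k _ _ _ _ a => A F k a ∨ B F k a := by
  obtain ⟨Ψ, hΨ, h1⟩ := hA
  obtain ⟨Φ, hΦ, h2⟩ := hB
  refine ⟨Ψ * Φ, mul_ne_zero hΨ hΦ, ?_⟩
  intro F k _ _ _ _ _ _ _ _ hF hk hfree a ha
  rw [map_mul]
  rcases ha with ha | ha
  · rw [h1 F k hF hk (fun hx => hfree hx) a ha, zero_mul]
  · rw [h2 F k hF hk (fun hx => hfree hx) a ha, mul_zero]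

lemma IsHypU.bex {J : Type} (s : Finset J)
    {A : J → ∀ (F k : Type u) [Field F] [Field k] [Algebra F k] [Algebra k₀ k], (I → F) → Prop}
    (hA : ∀ j ∈ s, IsHypU F₀ k₀ (A j)) :
    IsHypU F₀ k₀ fun F k _ _ _ _ a => ∃ j ∈ s, A j F k a := by
  classical
  induction s using Finset.induction_on with
  | empty =>
    refine IsHypU.empty.mono ?_
    rintro F k _ _ _ _ _ _ _ _ a ⟨j, hj, -⟩
    exact absurd hj (Finset.notMem_empty j)
  | insert j s hj ih =>
    refine ((hA j (Finset.mem_insert_self _ _)).or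
      (ih fun i hi => hA i (Finset.mem_insert_of_mem hi))).mono ?_
    rintro F k _ _ _ _ _ _ _ _ a ⟨i, hi, hia⟩
    rcases Finset.mem_insert.1 hi with rfl | hi
    · exact Or.inl hia
    · exact Or.inr ⟨i, hi, hia⟩

end

end Pool.Agent.OPG
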