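import Pool.Agent.Helper37.OPG.U2

/-!
# Project OPG, uniform version: linear changes, finiteness over the line
-/

universe u v w

namespace Pool.Agent.OPG

open MvPolynomial IntermediateField Pool.Agent.PL Pool.Agent.BT

/-- Linear changes of the parameters. -/
lemma IsHypU.comapLin {F₀ k₀ : Type u} [Field F₀] [Field k₀] [Algebra F₀ k₀] {I I' E : Type}
    [Fintype I] [DecidableEq I] [Fintype I'] [DecidableEq I'] (L₀ : (I → F₀) ≃ₗ[F₀] (I' → F₀))
    (L : ∀ (F : Type u) [Field F], (I → F) →ₗ[F] (I' → F))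
    (hL : ∀ (F : Type u) [Field F] [Algebra F₀ F] (v : I → F₀) (i' : I'),
      L F (fun i => algebraMap F₀ F (v i)) i' = algebraMap F₀ F (L₀ v i'))
    {A : ∀ (F k : Type u) [Field F] [Field k] [Algebra F k] [Algebra k₀ k], (I' × E → F) → Prop}
    (hA : IsHypU F₀ k₀ A) :
    IsHypU F₀ k₀ fun F k _ _ _ _ (a : I × E → F) =>
      A F k (fun q : I' × E => L F (fun i => a (i, q.2)) q.1) := by
  obtain ⟨Ψ, hΨ, h1⟩ := hA
  refine ⟨UL.linEquiv E L₀ Ψ, fun h0 => hΨ ?_, ?_⟩
  · exact (map_eq_zero_iff _ (UL.linEquiv E L₀).injective).1 h0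
  intro F k _ _ _ _ _ _ _ _ hF hk hfree a ha
  have h2 := h1 F k hF hk (fun hx => hfree hx) _ ha
  rw [← h2]
  have h : (aeval a : MvPolynomial (I × E) F₀ →ₐ[F₀] F).comp (UL.linHom E L₀.toLinearMap) =
      aeval fun q => L F (fun i => a (i, q.2)) q.1 := by
    apply MvPolynomial.algHom_ext
    rintro ⟨i', e⟩
    rw [AlgHom.comp_apply]
    unfold UL.linHom
    rw [aeval_X, aeval_X, map_sum, UL.lin_apply]
    refine Finset.sum_congr rfl fun i _ => ?_
    rw [map_mul, aeval_X, aeval_C, mul_comm]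
    congr 1
    have h3 := hL F (Pi.single i 1) i'
    have h4 : (fun j => algebraMap F₀ F ((Pi.single i 1 : I → F₀) j)) = Pi.single i 1 := by
      funext j
      by_cases hj : j = i
      · rw [hj, Pi.single_eq_same, Pi.single_eq_same, map_one]
      · rw [Pi.single_eq_of_ne hj, Pi.single_eq_of_ne hj, map_zero]
    rw [h4] at h3
    rw [h3]
    rfl
  exact congrArg (fun φ : MvPolynomial (I' × E) F₀ →ₐ[F₀] F => φ Ψ) h

/-- **THINFIN.**  Outside a hypersurface the projective curve has no point on `x = z = 0`. -/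
theorem closed_finGU {F₀ k₀ : Type u} [Field F₀] [Field k₀] [Algebra F₀ k₀]
    (hk₀ : ∃ S : Finset k₀, Subfield.closure (S : Set k₀) = ⊤) {N d t m : ℕ}
    {ds : Fin t → ℕ} {U : Type} [Fintype U] {e : U → ℕ} {h : ∀ u, MonV (N + 2) (e u) → k₀}
    {g0 : ∀ s, MonV (N + 2) (ds s) → k₀} {c : ℕ} (hNoe : Noe (relS g0 h) c) {w : Fin m → k₀}
    {j : Fin m} (hj : w j ≠ 0) :
    ∃ M, 1 ≤ M ∧ IsHypU F₀ k₀ fun F k _ _ _ _ (a : IxV (N + 2) d ds × Fin m → F) => ¬ FinG
      (fun q => ∑ e, algebraMap F k (a (Sum.inl q, e)) * algebraMap k₀ k (w e))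
      (relS (fun s q => ∑ e, algebraMap F k (a (Sum.inr ⟨s, q⟩, e)) * algebraMap k₀ k (w e))
        fun u q => algebraMap k₀ k (h u q)) M := by
  classical
  refine ⟨d + c + 1, Nat.le_add_left _ _, ?_⟩
  obtain ⟨a₀, ha₁, ha₂⟩ := exists_point' hj (fun q : MonV (N + 2) d => coeff q.1 (X 1 ^ d)) g0
  have h0 : FinG (fun q : MonV (N + 2) d => eval a₀ (genF w q))
      (fun u q => eval a₀ (relS (genR w) (fun u q => C (h u q)) u q)) (d + c + 1) := by
    rw [relS_map (fun P => eval a₀ P)]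
    have h1 : (fun (s : Fin t) (q : MonV (N + 2) (ds s)) => eval a₀ (genR w s q)) = g0 := by
      funext s q
      rw [eval_genR, ha₂]
    have h3 : (fun u q => eval a₀ (C (h u q))) = h := by
      funext u q
      rw [eval_C]
    rw [h1, h3]
    refine finG_special hNoe ?_ (Nat.le_succ _) (Nat.le_add_left _ _)
    have h2 : (fun q : MonV (N + 2) d => eval a₀ (genF w q)) =
        fun q : MonV (N + 2) d => coeff q.1 (X 1 ^ d) := by
      funext q
      rw [eval_genF, ha₁]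
    rw [h2]
    exact pol_coeff (totalDegree_X_pow _ _).le
  obtain ⟨Δ, hΔ, hΔφ⟩ := exists_det_finG (Nat.le_add_left 1 (d + c)) h0
  obtain ⟨Ψ, hΨ, hΨa⟩ := exists_restrictU (F₀ := F₀) hk₀ hΔ
  refine ⟨Ψ, hΨ, ?_⟩
  intro F k _ _ _ _ _ _ _ _ hF hk hfree a ha
  by_contra hcon
  apply ha
  have h1 := hΔφ k (eval₂Hom (algebraMap k₀ k) fun i => algebraMap F k (a i))
    (hΨa F k (fun hx => hfree hx) a hcon)
  rw [relS_map (fun P => eval₂Hom (algebraMap k₀ k) (fun i => algebraMap F k (a i)) P)] at h1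
  have hgF : ∀ q, eval₂Hom (algebraMap k₀ k) (fun i => algebraMap F k (a i))
      (genF w q : MvPolynomial (IxV (N + 2) d ds × Fin m) k₀) =
      ∑ e, algebraMap F k (a (Sum.inl q, e)) * algebraMap k₀ k (w e) := by
    intro q
    unfold genF
    rw [map_sum]
    refine Finset.sum_congr rfl fun e _ => ?_
    rw [map_mul, eval₂Hom_X', eval₂Hom_C]
  have hgR : ∀ s q, eval₂Hom (algebraMap k₀ k) (fun i => algebraMap F k (a i))
      (genR w s q : MvPolynomial (IxV (N + 2) d ds × Fin m) k₀) =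
      ∑ e, algebraMap F k (a (Sum.inr ⟨s, q⟩, e)) * algebraMap k₀ k (w e) := by
    intro s q
    unfold genR
    rw [map_sum]
    refine Finset.sum_congr rfl fun e _ => ?_
    rw [map_mul, eval₂Hom_X', eval₂Hom_C]
  simp only [hgF, hgR, eval₂Hom_C] at h1
  exact h1

end Pool.Agent.OPG
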