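import Pool.Agent.Helper77.BT.Pts
import Pool.Agent.Helper37.BT.ThinLin

/-!
# Project OPG: sets which are contained in a hypersurface
-/

universe u v

namespace Pool.Agent.OPG

open MvPolynomial Pool.Agent.PL Pool.Agent.BT

/-- The set is contained in a hypersurface of the affine space. -/
def IsHyp {F : Type u} [Field F] {I : Type} (A : Set (I → F)) : Prop :=
  ∃ Ψ : MvPolynomial I F, Ψ ≠ 0 ∧ ∀ a ∈ A, eval a Ψ = 0

section

variable {F : Type u} [Field F] {I I' E : Type}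

lemma IsHyp.mono {A B : Set (I → F)} (hB : IsHyp B) (h : A ⊆ B) : IsHyp A := by
  obtain ⟨Ψ, hΨ, h1⟩ := hB
  exact ⟨Ψ, hΨ, fun a ha => h1 a (h ha)⟩

lemma IsHyp.empty : IsHyp (∅ : Set (I → F)) :=
  ⟨1, one_ne_zero, fun a ha => absurd ha (Set.notMem_empty a)⟩

lemma IsHyp.union {A B : Set (I → F)} (hA : IsHyp A) (hB : IsHyp B) : IsHyp (A ∪ B) := by
  obtain ⟨Ψ, hΨ, h1⟩ := hA
  obtain ⟨Φ, hΦ, h2⟩ := hB
  refine ⟨Ψ * Φ, mul_ne_zero hΨ hΦ, fun a ha => ?_⟩
  rw [map_mul]
  rcases ha with ha | ha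
  · rw [h1 a ha, zero_mul]
  · rw [h2 a ha, mul_zero]

lemma IsHyp.biUnion {J : Type*} (s : Finset J) {A : J → Set (I → F)} (hA : ∀ j ∈ s, IsHyp (A j)) :
    IsHyp (⋃ j ∈ s, A j) := by
  classical
  induction s using Finset.induction_on with
  | empty => simpa using IsHyp.empty
  | insert j s hj ih =>
    rw [Finset.set_biUnion_insert]
    exact (hA j (Finset.mem_insert_self _ _)).union
      (ih fun i hi => hA i (Finset.mem_insert_of_mem hi))

/-- Linear changes of the parameters. -/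
lemma IsHyp.comapLin [Fintype I] [DecidableEq I] [Fintype I'] [DecidableEq I']
    (L : (I → F) ≃ₗ[F] (I' → F)) {A : Set (I' × E → F)} (hA : IsHyp A) :
    IsHyp {a : I × E → F | (fun q : I' × E => L (fun i => a (i, q.2)) q.1) ∈ A} := by
  obtain ⟨Ψ, hΨ, h1⟩ := hA
  refine ⟨UL.linEquiv E L Ψ, fun h0 => hΨ ?_, fun a ha => ?_⟩
  · exact (map_eq_zero_iff _ (UL.linEquiv E L).injective).1 h0
  · rw [UL.eval_linEquiv]
    exact h1 _ ha

end

/-- **THINFIN.**  Outside a hypersurface the projective curve has no point on `x = z = 0`. -/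
theorem closed_finG {F : Type u} {K : Type v} [Field F] [Field K] [Algebra F K] {N d t m : ℕ}
    {ds : Fin t → ℕ} {U : Type} [Fintype U] {e : U → ℕ} {h : ∀ u, MonV (N + 2) (e u) → K}
    {g0 : ∀ s, MonV (N + 2) (ds s) → K} {c : ℕ} (hNoe : Noe (relS g0 h) c) {w : Fin m → K}
    {j : Fin m} (hj : w j ≠ 0) :
    ∃ M, 1 ≤ M ∧ IsHyp {a : IxV (N + 2) d ds × Fin m → F | ¬ FinG
      (fun q => ∑ e, algebraMap F K (a (Sum.inl q, e)) * w e)
      (relS (fun s q => ∑ e, algebraMap F K (a (Sum.inr ⟨s, q⟩, e)) * w e) h) M} := by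
  classical
  refine ⟨d + c + 1, Nat.le_add_left _ _, ?_⟩
  obtain ⟨a₀, ha₁, ha₂⟩ := exists_point' hj (fun q : MonV (N + 2) d => coeff q.1 (X 1 ^ d)) g0
  have h0 : FinG (fun q : MonV (N + 2) d => eval a₀ (genF w q))
      (fun u q => eval a₀ (relS (genR w) (fun u q => C (h u q)) u q)) (d + c + 1) := by
    rw [relS_map (fun P => eval a₀ P)]
    have h1 : (fun (s : Fin t) (q : MonV (N + 2) (ds s)) => eval a₀ (genR w s q)) = g0 := by
      funext s q
      rw [eval_genR, ha₂]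
    have h3 : (fun u q => eval a₀ (C (h u q))) = h := by
      funext u q
      rw [eval_C]
    rw [h1, h3]
    refine finG_special hNoe ?_ (Nat.le_succ _) (Nat.le_add_left _ _)
    have h2 : (fun q : MonV (N + 2) d => eval a₀ (genF w q)) =
        fun q : MonV (N + 2) d => coeff q.1 (X 1 ^ d) := by
      funext q
      rw [eval_genF, ha₁]
    rw [h2]
    exact pol_coeff (totalDegree_X_pow _ _).le
  obtain ⟨Ψ, hΨ, hΨa⟩ := exists_pol_finG (F := F) (Nat.le_add_left 1 (d + c)) h0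
  refine ⟨Ψ, hΨ, fun a ha => ?_⟩
  by_contra hcon
  apply ha
  have h1 := hΨa a hcon
  rw [relS_map (fun P => eval (fun i => algebraMap F K (a i)) P)] at h1
  simp only [eval_genF, eval_genR, eval_C] at h1
  exact h1

end Pool.Agent.OPG
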