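import Pool.Agent.Helper37.OPG.Closed
import Pool.Agent.Helper37.BT.Fin
import Pool.Agent.Helper13.SX.N7
import Pool.Agent.Helper13.TQ.N7
import Pool.Agent.Helper13.OPG.N7
import Pool.Agent.Helper45.OPG.Closed

/-!
# Project OPG: the curves with a section are in a hypersurface
-/

universe u

namespace Pool.Agent.OPG

open Pool.Agent.PL Pool.Agent.BT Pool.Agent.SX

/-- **Linear systems of transcendence degree at least two: the curves with a Galois section over an extension of
degree not divisible by `p` are in a hypersurface.**  Here `p` is any divisor of the degree `d`. -/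
theorem closed_curves {F k : Type u} [Field F] [CharZero F] [Field k] [Algebra F k]
    (hF : ∃ S : Finset F, Subfield.closure (S : Set F) = ⊤)
    (hk : ∃ S : Finset k, Subfield.closure (S : Set k) = ⊤) {p d : ℕ} (hp : 0 < p)
    (hpd : p ∣ d) (hd3 : 3 ≤ d) {m : ℕ} {w : Fin (m + 1) → k} {i j l : Fin (m + 1)}
    (hT : AlgebraicIndependent F ![w i / w l, w j / w l]) {N t : ℕ} {ds : Fin t → ℕ} {U : Type}
    [Fintype U] {e : U → ℕ} {hh : ∀ u, MonV (N + 2) (e u) → k} (hNoe : NoeV ds hh) :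
    IsHyp {a : IxV (N + 2) d ds × Fin (m + 1) → F |
      BT.HasSecV p (mainS (sysW w a)) (relS (othS (sysW w a)) hh)} := by
  obtain ⟨r, hr⟩ := hpd
  have h1 := IsHyp.biUnion (F := F) (Finset.univ : Finset (Fin p))
    (A := fun ν : Fin p => {a : IxV (N + 2) d ds × Fin (m + 1) → F | 0 < (ν : ℕ) ∧
      HasSecX p ν (mainS (sysW w a)) (relS (othS (sysW w a)) hh)}) (fun ν _ => by
    by_cases hν : 0 < (ν : ℕ)
    · obtain ⟨Ψ, hΨ, hΨa⟩ := closed_of_key (P := fun a : IxV (N + 2) d ds → k =>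
        HasSecX p ν (mainS a) (relS (othS a) hh)) (fun c a _ h => hasSecX_smul c a h)
        (keyO_of_noe hp (Nat.not_dvd_of_pos_of_lt hν ν.2) hr hd3 hNoe) hF hk hT
      exact ⟨Ψ, hΨ, fun a ha => hΨa a ha.2⟩
    · refine IsHyp.mono IsHyp.empty fun a ha => ?_
      exact absurd ha.1 hν)
  refine IsHyp.mono h1 fun a ha => ?_
  obtain ⟨ν, hν1, hν2, h2⟩ := hasSecX_of_hasSecV hp ha
  exact Set.mem_iUnion₂.2 ⟨⟨ν, hν2⟩, Finset.mem_univ _, hν1, h2⟩

/-- **Linear systems of transcendence degree at least two, two quadrics: the curves with a Galois section over an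
extension of odd degree are in a hypersurface.** -/
theorem closed_curvesQ {F k : Type u} [Field F] [CharZero F] [Field k] [Algebra F k]
    (hF : ∃ S : Finset F, Subfield.closure (S : Set F) = ⊤)
    (hk : ∃ S : Finset k, Subfield.closure (S : Set k) = ⊤)
    {m : ℕ} {w : Fin (m + 1) → k} {i j l : Fin (m + 1)}
    (hT : AlgebraicIndependent F ![w i / w l, w j / w l]) {N t : ℕ} (ht : t ≤ N) {ds : Fin t → ℕ}
    {s₀ : Fin t} (hs₀ : ds s₀ = 2) {U : Type} [Fintype U] {e : U → ℕ}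
    {hh : ∀ u, MonV (N + 2) (e u) → k} (hcert : ∃ c, 1 ≤ c ∧ TQ.CertV ht hh c) :
    IsHyp {a : IxV (N + 2) 2 ds × Fin (m + 1) → F |
      HasSecV 2 (mainS (sysW w a)) (relS (othS (sysW w a)) hh)} := by
  obtain ⟨c, hc, hcert⟩ := hcert
  obtain ⟨Ψ, hΨ, hΨa⟩ := closed_of_key (P := fun a : IxV (N + 2) 2 ds → k =>
    HasSecV 2 (mainS a) (relS (othS a) hh)) (fun c a _ h => hasSecV_smul c a h)
    (keyO_of_cert ht hs₀ hc hcert) hF hk hT
  exact ⟨Ψ, hΨ, fun a ha => hΨa a ha⟩

end Pool.Agent.OPG
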