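import Pool.Agent.Helper37.OPG.U3
import Pool.Agent.Helper37.OPG.KeyN
import Pool.Agent.Helper10.SLG.KG
import Pool.Agent.Helper13.SX.N7
import Pool.Agent.Helper13.TQ.N7

/-!
# Project OPG, uniform version: the curves with a section are in a hypersurface
-/

universe u

namespace Pool.Agent.OPG

open MvPolynomial Pool.Agent.PL Pool.Agent.BT Pool.Agent.SX

/-- **Linear systems of transcendence degree at least two, one hypersurface for all base fields.**  Here `p` is any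
divisor of the degree `d`. -/
theorem closed_curvesU {F₀ k₀ : Type u} [Field F₀] [CharZero F₀] [Field k₀] [Algebra F₀ k₀]
    (hk₀ : ∃ S : Finset k₀, Subfield.closure (S : Set k₀) = ⊤) {p d : ℕ} (hp : 0 < p)
    (hpd : p ∣ d) (hd3 : 3 ≤ d) {m : ℕ} {w : Fin (m + 1) → k₀} {i j l : Fin (m + 1)}
    (hT : AlgebraicIndependent F₀ ![w i / w l, w j / w l]) {N t : ℕ} {ds : Fin t → ℕ} {U : Type}
    [Fintype U] {e : U → ℕ} {hh : ∀ u, MonV (N + 2) (e u) → k₀} (hNoe : NoeV ds hh) :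
    IsHypU F₀ k₀ fun F k _ _ _ _ (a : IxV (N + 2) d ds × Fin (m + 1) → F) =>
      BT.HasSecV p (mainS (sysW (algebraMap k₀ k ∘ w) a))
        (relS (othS (sysW (algebraMap k₀ k ∘ w) a)) fun u q => algebraMap k₀ k (hh u q)) := by
  obtain ⟨r, hr⟩ := hpd
  have h1 := IsHypU.bex (F₀ := F₀) (k₀ := k₀) (Finset.univ : Finset (Fin p))
    (A := fun ν F k _ _ _ _ (a : IxV (N + 2) d ds × Fin (m + 1) → F) => 0 < (ν : ℕ) ∧
      HasSecX p ν (mainS (sysW (algebraMap k₀ k ∘ w) a))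
        (relS (othS (sysW (algebraMap k₀ k ∘ w) a)) fun u q => algebraMap k₀ k (hh u q)))
    (fun ν _ => by
      by_cases hν : 0 < (ν : ℕ)
      · obtain ⟨Ψ, hΨ, hΨa⟩ := closed_of_keyG' (I := IxV (N + 2) d ds)
          (P := fun k' _ ι f => HasSecX p ν (mainS f) (relS (othS f) fun u q => ι (hh u q)))
          (fun k' _ ι c a _ h => hasSecX_smul c a h)
          (keyG_of_noe hp (Nat.not_dvd_of_pos_of_lt hν ν.2) hr hd3 hNoe) hk₀ hT
        refine ⟨Ψ, hΨ, ?_⟩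
        intro F k _ _ _ _ _ _ _ _ hF hk hfree a ha
        exact hΨa F k hF hk (fun hx => hfree hx) a ha.2
      · refine IsHypU.empty.mono ?_
        exact fun F k _ _ _ _ _ _ _ _ a ha => hν ha.1)
  refine h1.mono ?_
  intro F k _ _ _ _ _ _ _ _ a ha
  obtain ⟨ν, hν1, hν2, h2⟩ := hasSecX_of_hasSecV hp ha
  exact ⟨⟨ν, hν2⟩, Finset.mem_univ _, hν1, h2⟩

/-- **Linear systems of transcendence degree at least two, two quadrics, one hypersurface for all base fields.** -/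
theorem closed_curvesQU {F₀ k₀ : Type u} [Field F₀] [CharZero F₀] [Field k₀] [Algebra F₀ k₀]
    (hk₀ : ∃ S : Finset k₀, Subfield.closure (S : Set k₀) = ⊤)
    {m : ℕ} {w : Fin (m + 1) → k₀} {i j l : Fin (m + 1)}
    (hT : AlgebraicIndependent F₀ ![w i / w l, w j / w l]) {N t : ℕ} (ht : t ≤ N)
    {ds : Fin t → ℕ} {s₀ : Fin t} (hs₀ : ds s₀ = 2) {U : Type} [Fintype U] {e : U → ℕ}
    {hh : ∀ u, MonV (N + 2) (e u) → k₀} (hcert : ∃ c, 1 ≤ c ∧ TQ.CertV ht hh c) :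
    IsHypU F₀ k₀ fun F k _ _ _ _ (a : IxV (N + 2) 2 ds × Fin (m + 1) → F) =>
      HasSecV 2 (mainS (sysW (algebraMap k₀ k ∘ w) a))
        (relS (othS (sysW (algebraMap k₀ k ∘ w) a)) fun u q => algebraMap k₀ k (hh u q)) := by
  obtain ⟨c, hc, hcert⟩ := hcert
  obtain ⟨Ψ, hΨ, hΨa⟩ := closed_of_keyG' (I := IxV (N + 2) 2 ds)
    (P := fun k' _ ι f => HasSecV 2 (mainS f) (relS (othS f) fun u q => ι (hh u q)))
    (fun k' _ ι c a _ h => hasSecV_smul c a h) (keyG_of_cert ht hs₀ hc hcert) hk₀ hT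
  refine ⟨Ψ, hΨ, ?_⟩
  intro F k _ _ _ _ _ _ _ _ hF hk hfree a ha
  exact hΨa F k hF hk (fun hx => hfree hx) a ha

end Pool.Agent.OPG
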