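import Pool.Agent.Helper37.OPG.Curves

/-!
# Project OPG: the final assembly
-/

universe u v

namespace Pool.Agent.OPG

open MvPolynomial Pool.Agent.PL Pool.Agent.BT Pool.Agent.TQ Pool.Agent.Helper91.Sect

/-- one form -/
theorem closed_step {F k : Type u} [Field F] [CharZero F] [Field k] [Algebra F k]
    (hF : ∃ S : Finset F, Subfield.closure (S : Set F) = ⊤)
    (hk : ∃ S : Finset k, Subfield.closure (S : Set k) = ⊤) {p : ℕ} (hp : 0 < p)
    {m : ℕ} {w : Fin (m + 1) → k} {i j l' : Fin (m + 1)}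
    (hT : AlgebraicIndependent F ![w i / w l', w j / w l']) (hw : w l' ≠ 0)
    {N t : ℕ} (ht : t ≤ N) {d : Fin (t + 1) → ℕ} (s₀ : Fin (t + 1)) (hpd : p ∣ d s₀)
    (hd3 : 3 ≤ d s₀) {U : Type} [Fintype U] {e : U → ℕ} (h : U → MvPolynomial (Fin (N + 3)) k)
    (hh : ∀ u, (h u).IsHomogeneous (e u)) (l : Fin (t + 3) → Fin (N + 3) → k)
    (hl : ∀ (L : Type u) [Field L] [Algebra k L] (P : Fin (N + 3) → L),
      (∀ i, ∑ j, algebraMap k L (l i j) * P j = 0) → (∀ u, aeval P (h u) = 0) → P = 0) :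
    IsHyp {a : IxP (N + 2) d × Fin (m + 1) → F | HasSecP p (sysW w a) h} := by
  classical
  have : CharZero k := charZero_of_injective_algebraMap (algebraMap F k).injective
  obtain ⟨g, c, hg, hc, hcert⟩ := exists_coord ht h hh l hl
  obtain ⟨g0, hg0⟩ := exists_g0 k (fun s => d (s₀.succAbove s))
    (fun s : Fin t => ((Fin.natAdd 2 (Fin.castLE ht s)).cast (by omega) : Fin (N + 2)))
  obtain ⟨c', hNoe⟩ := noe_of_cert ht hc (h := fun u => dehom (e u) (chg g (h u))) hcert hg0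
  have hA1 := closed_curves hF hk hp hpd hd3 hT (hh := fun u => dehom (e u) (chg g (h u)))
    ⟨g0, c', hNoe⟩
  obtain ⟨M, hM, hA2⟩ := closed_finG (F := F) (d := d s₀) hNoe hw
  have h1 := IsHyp.comapLin (E := Fin (m + 1)) (trE F (N + 2) d s₀ hg) (hA1.union hA2)
  refine IsHyp.mono h1 fun a ha => ?_
  have h2 : trA k (N + 2) d s₀ g (sysW w a) = sysW w
      (fun q : IxV (N + 2) (d s₀) (fun s => d (s₀.succAbove s)) × Fin (m + 1) =>
        trE F (N + 2) d s₀ hg (fun i => a (i, q.2)) q.1) := trA_sysW w a g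
  by_cases hfin : FinG (mainS (trA k (N + 2) d s₀ g (sysW w a)))
      (relS (othS (trA k (N + 2) d s₀ g (sysW w a))) fun u => dehom (e u) (chg g (h u))) M
  · left
    have h3 := hasSecV_of_hasSecP hh hg hM hfin ha
    rw [h2] at h3
    exact h3
  · right
    rw [h2] at hfin
    exact hfin

/-- two quadrics, `p = 2` -/
theorem closed_stepQ {F k : Type u} [Field F] [CharZero F] [Field k] [Algebra F k]
    (hF : ∃ S : Finset F, Subfield.closure (S : Set F) = ⊤)
    (hk : ∃ S : Finset k, Subfield.closure (S : Set k) = ⊤)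
    {m : ℕ} {w : Fin (m + 1) → k} {i j l' : Fin (m + 1)}
    (hT : AlgebraicIndependent F ![w i / w l', w j / w l']) (hw : w l' ≠ 0)
    {N t : ℕ} (ht : t ≤ N) {d : Fin (t + 1) → ℕ} {s₀ s₁ : Fin (t + 1)} (hss : s₁ ≠ s₀)
    (hd₀ : d s₀ = 2) (hd₁ : d s₁ = 2) {U : Type} [Fintype U] {e : U → ℕ}
    (h : U → MvPolynomial (Fin (N + 3)) k)
    (hh : ∀ u, (h u).IsHomogeneous (e u)) (l : Fin (t + 3) → Fin (N + 3) → k)
    (hl : ∀ (L : Type u) [Field L] [Algebra k L] (P : Fin (N + 3) → L),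
      (∀ i, ∑ j, algebraMap k L (l i j) * P j = 0) → (∀ u, aeval P (h u) = 0) → P = 0) :
    IsHyp {a : IxP (N + 2) d × Fin (m + 1) → F | HasSecP 2 (sysW w a) h} := by
  classical
  have : CharZero k := charZero_of_injective_algebraMap (algebraMap F k).injective
  obtain ⟨g, c, hg, hc, hcert⟩ := exists_coord ht h hh l hl
  obtain ⟨g0, hg0⟩ := exists_g0 k (fun s => d (s₀.succAbove s))
    (fun s : Fin t => ((Fin.natAdd 2 (Fin.castLE ht s)).cast (by omega) : Fin (N + 2)))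
  obtain ⟨c', hNoe⟩ := noe_of_cert ht hc (h := fun u => dehom (e u) (chg g (h u))) hcert hg0
  obtain ⟨s', hs'⟩ := Fin.exists_succAbove_eq hss
  have hA1 : ∀ D : ℕ, D = 2 → IsHyp {a : IxV (N + 2) D (fun s => d (s₀.succAbove s)) ×
      Fin (m + 1) → F | HasSecV 2 (mainS (sysW w a))
        (relS (othS (sysW w a)) fun u => dehom (e u) (chg g (h u)))} := by
    rintro _ rfl
    exact closed_curvesQ hF hk hT ht (ds := fun s => d (s₀.succAbove s)) (s₀ := s')
      (by rw [hs', hd₁]) ⟨c, hc, hcert⟩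
  obtain ⟨M, hM, hA2⟩ := closed_finG (F := F) (d := d s₀) hNoe hw
  have h1 := IsHyp.comapLin (E := Fin (m + 1)) (trE F (N + 2) d s₀ hg)
    ((hA1 (d s₀) hd₀).union hA2)
  refine IsHyp.mono h1 fun a ha => ?_
  have h2 : trA k (N + 2) d s₀ g (sysW w a) = sysW w
      (fun q : IxV (N + 2) (d s₀) (fun s => d (s₀.succAbove s)) × Fin (m + 1) =>
        trE F (N + 2) d s₀ hg (fun i => a (i, q.2)) q.1) := trA_sysW w a g
  by_cases hfin : FinG (mainS (trA k (N + 2) d s₀ g (sysW w a)))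
      (relS (othS (trA k (N + 2) d s₀ g (sysW w a))) fun u => dehom (e u) (chg g (h u))) M
  · left
    have h3 := hasSecV_of_hasSecP hh hg hM hfin ha
    rw [h2] at h3
    exact h3
  · right
    rw [h2] at hfin
    exact hfin

/-- **Linear systems of complete intersections in a fixed projective variety, transcendence degree at least two.** -/
theorem bertiniO {F k : Type u} [Field F] [CharZero F] [Field k] [Algebra F k]
    (hF : ∃ S : Finset F, Subfield.closure (S : Set F) = ⊤)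
    (hk : ∃ S : Finset k, Subfield.closure (S : Set k) = ⊤)
    {m : ℕ} {w : Fin (m + 1) → k} {i j l' : Fin (m + 1)}
    (hT : AlgebraicIndependent F ![w i / w l', w j / w l'])
    {M t : ℕ} (ht : t + 1 ≤ M) {d : Fin t → ℕ} {U : Type} [Fintype U] {e : U → ℕ}
    (h : U → MvPolynomial (Fin (M + 1)) k) (hh : ∀ u, (h u).IsHomogeneous (e u))
    (l : Fin (t + 2) → Fin (M + 1) → k)
    (hl : ∀ (L : Type u) [Field L] [Algebra k L] (P : Fin (M + 1) → L),
      (∀ i, ∑ j, algebraMap k L (l i j) * P j = 0) → (∀ u, aeval P (h u) = 0) → P = 0) :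
    IsHyp {a : IxP M d × Fin (m + 1) → F |
      (∃ s, 3 ≤ d s ∧ HasSecP (d s) (sysW w a) h) ∨
      (∃ s s', s ≠ s' ∧ d s = 2 ∧ d s' = 2 ∧ HasSecP 2 (sysW w a) h)} := by
  classical
  have hw : w l' ≠ 0 := by
    intro h0
    have h1 := hT.transcendental 0
    simp only [Matrix.cons_val_zero, h0, div_zero] at h1
    exact h1 isAlgebraic_zero
  rcases t with _ | t
  · refine IsHyp.mono IsHyp.empty fun a ha => ?_
    rcases ha with ⟨s, -⟩ | ⟨s, -⟩
    · exact s.elim0
    · exact s.elim0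
  obtain ⟨N, rfl⟩ : ∃ N, M = N + 2 := ⟨M - 2, by omega⟩
  have h1 := IsHyp.biUnion (F := F) (Finset.univ : Finset (Fin (t + 1)))
    (A := fun s => {a : IxP (N + 2) d × Fin (m + 1) → F |
      3 ≤ d s ∧ HasSecP (d s) (sysW w a) h}) (by
    intro s _
    by_cases hds : 3 ≤ d s
    · exact IsHyp.mono (closed_step hF hk (by omega) hT hw (by omega) s (dvd_refl _) hds h hh l hl)
        fun a ha => ha.2
    · refine IsHyp.mono IsHyp.empty fun a ha => ?_
      exact absurd ha.1 hds)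
  have h2 := IsHyp.biUnion (F := F) (Finset.univ : Finset (Fin (t + 1) × Fin (t + 1)))
    (A := fun s => {a : IxP (N + 2) d × Fin (m + 1) → F |
      s.1 ≠ s.2 ∧ d s.1 = 2 ∧ d s.2 = 2 ∧ HasSecP 2 (sysW w a) h}) (by
    rintro ⟨s₀, s₁⟩ -
    by_cases hs : s₀ ≠ s₁ ∧ d s₀ = 2 ∧ d s₁ = 2
    · exact IsHyp.mono (closed_stepQ hF hk hT hw (by omega) hs.1.symm hs.2.1 hs.2.2 h hh l hl)
        fun a ha => ha.2.2.2
    · refine IsHyp.mono IsHyp.empty fun a ha => ?_
      exact absurd ⟨ha.1, ha.2.1, ha.2.2.1⟩ hs)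
  refine IsHyp.mono (h1.union h2) fun a ha => ?_
  rcases ha with ⟨s, hs⟩ | ⟨s, s', hs⟩
  · left
    simp only [Set.mem_iUnion]
    exact ⟨s, Finset.mem_univ _, hs⟩
  · right
    simp only [Set.mem_iUnion]
    exact ⟨(s, s'), Finset.mem_univ _, hs⟩

end Pool.Agent.OPG
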